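import Pool.Agent.helper42.CQ.SpecC

/-!
# MP_ba8873_co, row cq:LM6: Lemma 6
-/

set_option autoImplicit false

namespace Pool.Agent.helper42.CQ

open Finset Pool.Agent.helper24.CG

theorem LM6_conc (c θ m t1 t2 t : ℝ) (hc : 0 ≤ c) (h1 : t1 ≤ t) (h2 : t ≤ t2)
    (g1 : m ≤ t1 * θ - c * t1 ^ 2 / 2) (g2 : m ≤ t2 * θ - c * t2 ^ 2 / 2) :
    m ≤ t * θ - c * t ^ 2 / 2 := by
  rcases eq_or_lt_of_le (h1.trans h2) with h | h
  · have h3 : t = t1 := le_antisymm (h ▸ h2) h1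
    rw [h3]
    exact g1
  · have e : (t2 - t1) * (t * θ - c * t ^ 2 / 2 - m) =
        (t2 - t) * (t1 * θ - c * t1 ^ 2 / 2 - m) + (t - t1) * (t2 * θ - c * t2 ^ 2 / 2 - m) +
          c / 2 * ((t - t1) * (t2 - t) * (t2 - t1)) := by ring
    have k1 : 0 ≤ (t2 - t) * (t1 * θ - c * t1 ^ 2 / 2 - m) := mul_nonneg (by linarith) (by linarith)
    have k2 : 0 ≤ (t - t1) * (t2 * θ - c * t2 ^ 2 / 2 - m) := mul_nonneg (by linarith) (by linarith)
    have k3 : 0 ≤ c / 2 * ((t - t1) * (t2 - t) * (t2 - t1)) :=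
      mul_nonneg (by linarith) (mul_nonneg (mul_nonneg (by linarith) (by linarith)) (by linarith))
    have key : 0 ≤ (t2 - t1) * (t * θ - c * t ^ 2 / 2 - m) := by linarith
    have := (mul_nonneg_iff_of_pos_left (show 0 < t2 - t1 by linarith)).1 key
    linarith

theorem LM6 : LM6_stmt := by
  intro a χ θ e η ha ha1 hχ h1 h2 h3 he hη h4 h5
  obtain ⟨u, rfl⟩ : ∃ u, θ = a * u := ⟨θ / a, by field_simp⟩
  have heu : e ≤ u := le_of_mul_le_mul_left h4 ha
  have hue : u ≤ e + η := le_of_mul_le_mul_left h5 ha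
  have hu : 0 ≤ u := he.trans heu
  have hau : 0 ≤ a * u := mul_nonneg ha.le hu
  have hχ1 : χ ≤ 1 := by nlinarith
  have hmax : 0 ≤ max 0 (a * u - e - η / 2) := le_max_left _ _
  have hmax2 : a * u - e - η / 2 ≤ max 0 (a * u - e - η / 2) := le_max_right _ _
  unfold Phi
  set mm := max 0 (a * u - e - η / 2) with hmm
  have hm1 : 0 ≤ (1 - χ) * η * mm := mul_nonneg (mul_nonneg (by linarith) hη) hmax
  by_cases hc1 : (2 * a - 1) * u ≤ e
  · have k1 : 0 ≤ (1 - χ) * ((e - (2 * a - 1) * u) * (u - e)) :=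
      mul_nonneg (by linarith) (mul_nonneg (by linarith) (by linarith))
    have k2 : 0 ≤ χ * (a * u) * (η - (u - e)) := mul_nonneg (mul_nonneg hχ hau) (by linarith)
    have k3 : 0 ≤ u ^ 2 * (a - (1 - χ)) := mul_nonneg (sq_nonneg u) (by linarith)
    have k4 : 0 ≤ u ^ 2 * a * (1 - 4 * a * χ) :=
      mul_nonneg (mul_nonneg (sq_nonneg u) ha.le) (by linarith)
    nlinarith
  · rw [not_le] at hc1
    have k5 : 0 ≤ e * ((1 - χ) * ((2 * a - 1) * u - e)) :=
      mul_nonneg he (mul_nonneg (by linarith) (by linarith))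
    have k6 : 0 ≤ e * u * (1 - χ * (1 + 2 * a)) := mul_nonneg (mul_nonneg he hu) (by linarith)
    by_cases hc2 : 2 * (a * u - e) ≤ η
    · have k7 : 0 ≤ χ * (a * u) * (η - 2 * (a * u - e)) :=
        mul_nonneg (mul_nonneg hχ hau) (by linarith)
      nlinarith
    · rw [not_le] at hc2
      have k8 : (1 - χ) * η * (a * u - e - η / 2) ≤ (1 - χ) * η * mm :=
        mul_le_mul_of_nonneg_left hmax2 (mul_nonneg (by linarith) hη)
      have k3 : 0 ≤ u ^ 2 * (a - (1 - χ)) := mul_nonneg (sq_nonneg u) (by linarith)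
      have k4 : 0 ≤ u ^ 2 * a * (1 - 4 * a * χ) :=
        mul_nonneg (mul_nonneg (sq_nonneg u) ha.le) (by linarith)
      have key := LM6_conc (1 - χ) (a * u) (2 * χ * (a * u) ^ 2) u (2 * (a * u) - e) (e + η)
        (by linarith) hue (by linarith) (by nlinarith) (by nlinarith)
      nlinarith

end Pool.Agent.helper42.CQ
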